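import Pool.Agent.Helper51.R5.FACT

/-! Row EMB of `Helper17/R5/Sheet` -/

set_option autoImplicit false

namespace Pool.Helper17.R5

/-- cross product -/
def cr (u v : V3) : V3 :=
  (u.2.1 * v.2.2 - u.2.2 * v.2.1, u.2.2 * v.1 - u.1 * v.2.2, u.1 * v.2.1 - u.2.1 * v.1)

/-- `x u + y v + z w` -/
def cmb (x y z : ℤ) (u v w : V3) : V3 :=
  (x * u.1 + y * v.1 + z * w.1, x * u.2.1 + y * v.2.1 + z * w.2.1,
    x * u.2.2 + y * v.2.2 + z * w.2.2)

theorem ev_cmb (N : TF) (x y z : ℤ) (u v w : V3) :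
    ev N (cmb x y z u v w) = x ^ 2 * ev N u + y ^ 2 * ev N v + z ^ 2 * ev N w +
      x * y * pol N u v + x * z * pol N u w + y * z * pol N v w := by
  simp only [ev, cmb, pol]; ring

theorem cramer (u v w t : V3) (h : det3 u v w = 1) :
    t = cmb (lin (cr v w) t) (lin (cr w u) t) (lin (cr u v) t) u v w := by
  obtain ⟨t1, t2, t3⟩ := t
  obtain ⟨u1, u2, u3⟩ := u
  obtain ⟨v1, v2, v3⟩ := v
  obtain ⟨w1, w2, w3⟩ := w
  simp only [det3] at h
  simp only [cmb, lin, cr, Prod.mk.injEq]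
  refine ⟨?_, ?_, ?_⟩
  · linear_combination (-t1) * h
  · linear_combination (-t2) * h
  · linear_combination (-t3) * h

theorem disc_cmb (N : TF) (u v w : V3) :
    disc (ev N u, pol N u v, ev N v, pol N u w, pol N v w, ev N w) =
      disc N * det3 u v w ^ 2 := by
  obtain ⟨a, b, h, k, d, e⟩ := N
  obtain ⟨u1, u2, u3⟩ := u
  obtain ⟨v1, v2, v3⟩ := v
  obtain ⟨w1, w2, w3⟩ := w
  simp only [disc, det3, ev, pol, tfa, tfb, tfh, tfk, tfd, tfe]
  ring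

theorem st_EMB : ST_EMB := by
  intro N Y ht hd hY
  -- a primitive isotropic vector
  have hprim : ∃ g x y t0 : ℤ, IsCoprime x y ∧ IsCoprime g t0 ∧
      ev N (g * x, g * y, t0) = 0 := by
    obtain ⟨⟨t1, t2, t3⟩, hne, h0⟩ := ht
    by_cases h12 : t1 ≠ 0 ∨ t2 ≠ 0
    · obtain ⟨G, x, y, hG, e1, e2, hxy⟩ := ext_prim t1 t2 h12
      obtain ⟨H, g, t0, hH, e3, e4, hgt⟩ := ext_prim G t3 (Or.inl hG)
      refine ⟨g, x, y, t0, hxy, hgt, ?_⟩
      have : H ^ 2 * ev N (g * x, g * y, t0) = 0 := by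
        rw [← h0, e1, e2, e4, e3]
        simp only [ev]; ring
      rcases mul_eq_zero.1 this with h | h
      · exact absurd (pow_eq_zero_iff two_ne_zero |>.1 h) hH
      · exact h
    · push Not at h12
      obtain ⟨h1, h2⟩ := h12
      subst h1; subst h2
      have h3 : t3 ≠ 0 := by
        rintro rfl
        exact hne rfl
      refine ⟨0, 1, 0, 1, isCoprime_one_left, isCoprime_one_right, ?_⟩
      have h4 : t3 ^ 2 * ev N (0 * 1, 0 * 0, 1) = ev N (0, 0, t3) := by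
        simp only [ev]; ring
      have : t3 ^ 2 * ev N (0 * 1, 0 * 0, 1) = 0 := h4.trans h0
      rcases mul_eq_zero.1 this with h | h
      · exact absurd (pow_eq_zero_iff two_ne_zero |>.1 h) h3
      · exact h
  obtain ⟨g, x, y, t0, ⟨u, v, huv⟩, ⟨s, r, hsr⟩, h0⟩ := hprim
  obtain ⟨c1, hc1⟩ : ∃ c1 : V3, c1 = (g * x, g * y, t0) := ⟨_, rfl⟩
  obtain ⟨c2, hc2⟩ : ∃ c2 : V3, c2 = (-v, u, 0) := ⟨_, rfl⟩
  obtain ⟨c3, hc3⟩ : ∃ c3 : V3, c3 = (-(r * x), -(r * y), s) := ⟨_, rfl⟩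
  have hdet : det3 c1 c2 c3 = 1 := by
    rw [hc1, hc2, hc3]
    simp only [det3]
    linear_combination (g * s + r * t0) * huv + hsr
  rw [← hc1] at h0
  have hdisc := disc_cmb N c1 c2 c3
  rw [hdet, hd, h0] at hdisc
  have hne : pol N c1 c2 ≠ 0 ∨ pol N c1 c3 ≠ 0 := by
    by_contra hcon
    push Not at hcon
    rw [hcon.1, hcon.2] at hdisc
    simp only [disc, tfa, tfb, tfh, tfk, tfd, tfe] at hdisc
    apply hY
    have : Y ^ 2 = 0 := by linear_combination -hdisc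
    exact pow_eq_zero_iff two_ne_zero |>.1 this
  obtain ⟨κ, p, q, hκ, e1, e2, ⟨m, n, hmn⟩⟩ := ext_prim _ _ hne
  obtain ⟨d2, hd2⟩ : ∃ d2 : V3, d2 = cmb 0 m n c1 c2 c3 := ⟨_, rfl⟩
  obtain ⟨d3, hd3⟩ : ∃ d3 : V3, d3 = cmb 0 (-q) p c1 c2 c3 := ⟨_, rfl⟩
  have hdet' : det3 c1 d2 d3 = 1 := by
    have : det3 c1 d2 d3 = (m * p + n * q) * det3 c1 c2 c3 := by
      rw [hd2, hd3]; simp only [det3, cmb]; ring
    rw [this, hdet, hmn]; ring
  have hp2 : pol N c1 d2 = κ := by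
    have : pol N c1 d2 = m * pol N c1 c2 + n * pol N c1 c3 := by
      rw [hd2]; simp only [pol, cmb]; ring
    rw [this, e1, e2]
    linear_combination κ * hmn
  have hp3 : pol N c1 d3 = 0 := by
    have : pol N c1 d3 = -q * pol N c1 c2 + p * pol N c1 c3 := by
      rw [hd3]; simp only [pol, cmb]; ring
    rw [this, e1, e2]; ring
  have hdisc' := disc_cmb N c1 d2 d3
  rw [hdet', hd, h0, hp2, hp3] at hdisc'
  simp only [disc, tfa, tfb, tfh, tfk, tfd, tfe] at hdisc'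
  have hk : κ ^ 2 * ev N d3 = Y ^ 2 := by linear_combination hdisc'
  have hdvd : κ ∣ Y := (Int.pow_dvd_pow_iff (two_ne_zero)).1 ⟨ev N d3, hk.symm⟩
  obtain ⟨w, hw⟩ := hdvd
  have hev : ev N d3 = w ^ 2 := by
    apply mul_left_cancel₀ (pow_ne_zero 2 hκ)
    rw [hk, hw]; ring
  refine ⟨cmb 0 (-1) 0 (cr d2 d3) (cr d3 c1) (cr c1 d2),
    cmb 0 0 w (cr d2 d3) (cr d3 c1) (cr c1 d2),
    cmb κ (ev N d2) (pol N d2 d3) (cr d2 d3) (cr d3 c1) (cr c1 d2), ?_⟩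
  intro t
  have hlin : ∀ (x y z : ℤ) (a b c : V3), lin (cmb x y z a b c) t =
      x * lin a t + y * lin b t + z * lin c t := by
    intro x y z a b c
    simp only [lin, cmb]; ring
  rw [hlin, hlin, hlin]
  conv_lhs => rw [cramer c1 d2 d3 t hdet']
  rw [ev_cmb, h0, hp2, hp3, hev]
  ring

end Pool.Helper17.R5
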