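import Pool.Agent.Helper17.R5.Sheet

/-! Row FACT of `Helper17/R5/Sheet` -/

set_option autoImplicit false

namespace Pool.Helper17.R5

theorem ext_prim (a b : ℤ) (h : a ≠ 0 ∨ b ≠ 0) :
    ∃ g x y : ℤ, g ≠ 0 ∧ a = g * x ∧ b = g * y ∧ IsCoprime x y := by
  have hg : 0 < Int.gcd a b := by
    rcases h with h | h
    · exact Int.gcd_pos_of_ne_zero_left b h
    · exact Int.gcd_pos_of_ne_zero_right a h
  obtain ⟨x, y, h1, h2, h3⟩ := Int.exists_gcd_one hg
  refine ⟨(Int.gcd a b : ℤ), x, y, by exact_mod_cast hg.ne', ?_, ?_,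
    Int.isCoprime_iff_gcd_eq_one.2 h1⟩
  · rw [mul_comm]; exact h2
  · rw [mul_comm]; exact h3

theorem prim_mul {l l' m m' : ℤ} (h : IsCoprime l l') (h' : IsCoprime m m') :
    ∃ x y z : ℤ, x * (l * m) + y * (l * m' + l' * m) + z * (l' * m') = 1 := by
  obtain ⟨s, t, hst⟩ := h'
  have hp : IsCoprime (l ^ 2) (l' ^ 2) := h.pow
  obtain ⟨u, v, huv⟩ := hp
  refine ⟨u * (s * l - t * l'), u * t * l + v * s * l', v * (t * l' - s * l), ?_⟩
  linear_combination huv + (u * l ^ 2 + v * l' ^ 2) * hst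

theorem st_FACT : ST_FACT := by
  intro α β γ y h hy
  by_cases hα : α = 0
  · subst hα
    have hβ : β ≠ 0 := by
      rintro rfl
      apply hy
      have : y ^ 2 = 0 := by rw [← h]; ring
      exact pow_eq_zero_iff (two_ne_zero) |>.1 this
    obtain ⟨g, x, z, hg, h1, h2, h3⟩ := ext_prim (2 * β) γ (Or.inl (by omega))
    refine ⟨g, 0, 1, x, z, hg, isCoprime_zero_left.2 isUnit_one, h3, ?_, ?_, ?_⟩
    · ring
    · rw [h1]; ring
    · rw [h2]; ring
  · obtain ⟨g, l, l', hg, h1, h2, h3⟩ := ext_prim α (β - y) (Or.inl hα)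
    obtain ⟨g', m, m', hg', h1', h2', h3'⟩ := ext_prim α (β + y) (Or.inl hα)
    obtain ⟨x, w, z, hxyz⟩ := prim_mul h3 h3'
    have e1 : g * g' * (l * m) = α * α := by
      calc g * g' * (l * m) = (g * l) * (g' * m) := by ring
        _ = α * α := by rw [← h1, ← h1']
    have e2 : g * g' * (l * m' + l' * m) = α * (2 * β) := by
      calc g * g' * (l * m' + l' * m) = (g * l) * (g' * m') + (g * l') * (g' * m) := by ring
        _ = α * (2 * β) := by rw [← h1, ← h2, ← h1', ← h2']; ring
    have e3 : g * g' * (l' * m') = α * γ := by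
      calc g * g' * (l' * m') = (g * l') * (g' * m') := by ring
        _ = (β - y) * (β + y) := by rw [← h2, ← h2']
        _ = α * γ := by linear_combination h
    have e4 : g * g' = α * (x * α + w * (2 * β) + z * γ) := by
      linear_combination (-(g * g')) * hxyz + x * e1 + w * e2 + z * e3
    set c : ℤ := x * α + w * (2 * β) + z * γ with hc
    have hc0 : c ≠ 0 := by
      intro h0
      rw [h0, mul_zero] at e4
      exact (mul_ne_zero hg hg') e4
    refine ⟨c, l, l', m, m', hc0, h3, h3', ?_, ?_, ?_⟩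
    · apply mul_left_cancel₀ hα
      rw [← e1, e4]; ring
    · apply mul_left_cancel₀ hα
      rw [← e2, e4]; ring
    · apply mul_left_cancel₀ hα
      rw [← e3, e4]; ring

end Pool.Helper17.R5
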