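import Pool.Agent.Helper17.R5.Sheet

/-! Row ISO of `Helper17/R5/Sheet` -/

set_option autoImplicit false

namespace Pool.Helper17.R5

theorem st_ISO : ST_ISO := by
  rintro ⟨a, b, h, k, d, e⟩ y Y ha hy hd
  simp only [tfa, disc, tfb, tfh, tfk, tfd, tfe] at ha hd
  have ha0 : a ≠ 0 := by rw [ha]; exact pow_ne_zero 2 hy
  by_cases hq : b ^ 2 - 4 * a * h = 0
  · refine ⟨(-b, 2 * a, 0), ?_, ?_⟩
    · intro h0
      have h1 : 2 * a = 0 := congrArg (fun t : V3 => t.2.1) h0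
      exact ha0 (by omega)
    · simp only [ev, tfa, tfb, tfh, tfk, tfd, tfe]
      linear_combination (-a) * hq
  · refine ⟨(-(b * (-(b * k - 2 * a * d) + 2 * y * Y) + k * (b ^ 2 - 4 * a * h)),
      2 * a * (-(b * k - 2 * a * d) + 2 * y * Y), 2 * a * (b ^ 2 - 4 * a * h)), ?_, ?_⟩
    · intro h0
      have h1 : 2 * a * (b ^ 2 - 4 * a * h) = 0 := congrArg (fun t : V3 => t.2.2) h0
      rcases mul_eq_zero.1 h1 with h2 | h2
      · exact ha0 (by omega)
      · exact hq h2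
    · simp only [ev, tfa, tfb, tfh, tfk, tfd, tfe]
      linear_combination (4 * a * (b ^ 2 - 4 * a * h) * Y ^ 2) * ha +
        (4 * a ^ 2 * (b ^ 2 - 4 * a * h)) * hd

end Pool.Helper17.R5
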